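import Pool.Agent.U425.QH.Poly

set_option autoImplicit false
set_option linter.unusedSectionVars false

/-!
# Cubes in sets of small doubling, and pieces of smaller dimension
-/

namespace Pool.Agent.U425.QH

open Finset

section group
variable {W : Type*} [AddCommGroup W]

open Classical in
/-- the number of cubes `x + ∑ ω i h i` in `B` with edges `h i ∈ Y` -/
noncomputable def cb (Y : Finset W) : ℕ → Finset W → W → ℕ
  | 0, B, x => if x ∈ B then 1 else 0
  | m + 1, B, x => ∑ h ∈ Y, cb Y m (B.filter (fun y => y + h ∈ B)) x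

/-- `2 ^ m - m - 1` -/
def ex : ℕ → ℕ
  | 0 => 0
  | m + 1 => ex m + (2 ^ m - 1)

theorem ex_eq (m : ℕ) : ex m + m + 1 = 2 ^ m := by
  induction m with
  | zero => rfl
  | succ m ih =>
    have h1 : 1 ≤ 2 ^ m := Nat.one_le_two_pow
    have h2 : 2 ^ (m + 1) = 2 ^ m + 2 ^ m := by ring
    simp only [ex]
    omega

theorem cb_zero (Y : Finset W) (m : ℕ) (B : Finset W) {x : W} (hx : x ∉ B) : cb Y m B x = 0 := by
  classical
  induction m generalizing B with
  | zero => simp [cb, hx]
  | succ m ih =>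
    simp only [cb]
    exact sum_eq_zero fun h _ => ih _ fun h' => hx (mem_filter.1 h').1

theorem cb_le (Y : Finset W) (m : ℕ) (B : Finset W) (n : ℕ) (hB : B.card ≤ n) (x : W) :
    cb Y m B x ≤ n ^ m := by
  classical
  induction m generalizing B with
  | zero => simp only [cb, pow_zero]; split_ifs <;> norm_num
  | succ m ih =>
    simp only [cb]
    have h1 : ∀ h ∈ Y, cb Y m (B.filter (fun y => y + h ∈ B)) x ≤
        if x + h ∈ B then n ^ m else 0 := by
      intro h _
      split_ifs with hx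
      · exact ih _ ((card_filter_le _ _).trans hB)
      · refine (cb_zero Y m _ ?_).le
        exact fun h' => hx (mem_filter.1 h').2
    refine (sum_le_sum h1).trans ?_
    rw [← sum_filter, sum_const, smul_eq_mul, pow_succ, mul_comm]
    refine Nat.mul_le_mul_left _ (le_trans ?_ hB)
    refine card_le_card_of_injOn (fun h => x + h) (fun h hh => ?_) fun a _ b _ hab => ?_
    · exact (mem_filter.1 hh).2
    · exact add_left_cancel hab

/-- the sum of the sizes of the intersections -/
theorem sum_inter (Y B : Finset W) [DecidableEq W] (hY : ∀ a ∈ B, ∀ b ∈ B, a - b ∈ Y) :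
    ∑ h ∈ Y, (B.filter (fun y => y + h ∈ B)).card = B.card ^ 2 := by
  classical
  have h1 : ∀ h ∈ Y, (B.filter (fun y => y + h ∈ B)).card =
      ∑ y ∈ B, if y + h ∈ B then 1 else 0 := by
    intro h _
    rw [card_filter]
  rw [sum_congr rfl h1, sum_comm]
  have h2 : ∀ y ∈ B, (∑ h ∈ Y, if y + h ∈ B then 1 else 0) = B.card := by
    intro y hy
    rw [← card_filter]
    refine card_bij (fun h _ => y + h) (fun h hh => (mem_filter.1 hh).2)
      (fun a _ b _ hab => add_left_cancel hab) fun b hb => ?_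
    refine ⟨b - y, mem_filter.2 ⟨hY b hb y hy, ?_⟩, ?_⟩
    · rw [add_sub_cancel]; exact hb
    · rw [add_sub_cancel]
  rw [sum_congr rfl h2, sum_const, smul_eq_mul, sq]

/-- **Many cubes.** -/
theorem cb_low (Y : Finset W) (m : ℕ) (B : Finset W) (hY : ∀ a ∈ B, ∀ b ∈ B, a - b ∈ Y) :
    (B.card : ℝ) ^ 2 ^ m ≤ (Y.card : ℝ) ^ ex m * ∑ x ∈ B, (cb Y m B x : ℝ) := by
  classical
  induction m generalizing B with
  | zero =>
    have : ∑ x ∈ B, (cb Y 0 B x : ℝ) = B.card := by
      have h1 : ∀ x ∈ B, (cb Y 0 B x : ℝ) = 1 := by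
        intro x hx
        simp [cb, hx]
      rw [sum_congr rfl h1]
      simp
    rw [this]
    simp [ex]
  | succ m ih =>
    rcases B.eq_empty_or_nonempty with rfl | hne
    · simp
    have hYne : 0 < Y.card := by
      obtain ⟨b, hb⟩ := hne
      exact card_pos.2 ⟨b - b, hY b hb b hb⟩
    have hY0 : (0 : ℝ) < Y.card := by exact_mod_cast hYne
    set Bh : W → Finset W := fun h => B.filter (fun y => y + h ∈ B) with hBh
    -- exchange
    have e1 : ∑ x ∈ B, (cb Y (m + 1) B x : ℝ) = ∑ h ∈ Y, ∑ x ∈ Bh h, (cb Y m (Bh h) x : ℝ) := by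
      have : ∀ x ∈ B, (cb Y (m + 1) B x : ℝ) = ∑ h ∈ Y, (cb Y m (Bh h) x : ℝ) := by
        intro x _
        simp only [cb]
        push_cast
        rfl
      rw [sum_congr rfl this, sum_comm]
      refine sum_congr rfl fun h _ => ?_
      refine (sum_subset (filter_subset _ _) fun x _ hx => ?_).symm
      rw [cb_zero Y m _ hx]
      simp
    have h2 : ∀ h ∈ Y, ((Bh h).card : ℝ) ^ 2 ^ m ≤
        (Y.card : ℝ) ^ ex m * ∑ x ∈ Bh h, (cb Y m (Bh h) x : ℝ) := fun h _ =>
      ih (Bh h) fun a ha b hb => hY a (mem_filter.1 ha).1 b (mem_filter.1 hb).1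
    have h3 : ∑ h ∈ Y, ((Bh h).card : ℝ) = (B.card : ℝ) ^ 2 := by
      have := sum_inter Y B hY
      exact_mod_cast this
    have h4 : (∑ h ∈ Y, ((Bh h).card : ℝ)) ^ 2 ^ m ≤
        (Y.card : ℝ) ^ (2 ^ m - 1) * ∑ h ∈ Y, ((Bh h).card : ℝ) ^ 2 ^ m := by
      obtain ⟨k, hk⟩ : ∃ k, 2 ^ m = k + 1 := ⟨2 ^ m - 1, by
        have : 1 ≤ 2 ^ m := Nat.one_le_two_pow
        omega⟩
      rw [hk, Nat.add_sub_cancel]
      have h6 := pow_sum_div_card_le_sum_pow (s := Y) (f := fun h => ((Bh h).card : ℝ)) (n := k)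
        (fun h _ => Nat.cast_nonneg _)
      rwa [div_le_iff₀ (by positivity), mul_comm] at h6
    have h7 : (Y.card : ℝ) ^ ex (m + 1) = (Y.card : ℝ) ^ (2 ^ m - 1) * (Y.card : ℝ) ^ ex m := by
      rw [← pow_add]
      congr 1
      simp only [ex]
      omega
    calc (B.card : ℝ) ^ 2 ^ (m + 1) = (∑ h ∈ Y, ((Bh h).card : ℝ)) ^ 2 ^ m := by
          rw [h3, ← pow_mul]
          congr 1
          ring
      _ ≤ (Y.card : ℝ) ^ (2 ^ m - 1) * ∑ h ∈ Y, ((Bh h).card : ℝ) ^ 2 ^ m := h4
      _ ≤ (Y.card : ℝ) ^ (2 ^ m - 1) *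
          ∑ h ∈ Y, ((Y.card : ℝ) ^ ex m * ∑ x ∈ Bh h, (cb Y m (Bh h) x : ℝ)) := by
          gcongr with h hh
          exact h2 h hh
      _ = (Y.card : ℝ) ^ ex (m + 1) * ∑ x ∈ B, (cb Y (m + 1) B x : ℝ) := by
          rw [e1, h7, ← mul_sum, mul_assoc]

end group

section top
variable {W : Type*} [AddCommGroup W] [Module ℝ W] [TopologicalSpace W]
  [IsTopologicalAddGroup W] [ContinuousSMul ℝ W]

/-- **Few cubes, if all pieces of smaller dimension are small.** -/
theorem cb_up (Y X : Finset W) (V : Submodule ℝ W) (x₀ : W) (hV : V ≠ ⊥)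
    (hX : ∀ x ∈ X, x - x₀ ∈ V) (δ : ℕ)
    (hδ : ∀ X' ⊆ X, vectorSpan ℝ (X' : Set W) ≠ V → X'.card ≤ δ) (m : ℕ) (B : Finset W)
    (hB : B.card ≤ Y.card) (g : W → ℝ) (hc : Continuous g) (hg : PD (m + 1) g)
    (h0 : ∀ b ∈ B, g b = 0) {z₀ : W} (hz₀ : z₀ ∈ V) (hne : g (x₀ + z₀) ≠ 0) :
    ∑ x ∈ X, cb Y m B x ≤ (m + 1) * Y.card ^ m * δ := by
  classical
  induction m generalizing B g z₀ with
  | zero =>
    simp only [cb, zero_add, pow_zero, mul_one, one_mul]
    rw [← card_filter]
    apply hδ _ (filter_subset _ _)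
    exact affine_span hc hg hV hz₀ hne (fun x hx => hX x (mem_filter.1 hx).1)
      (fun x hx => h0 x (mem_filter.1 hx).2)
  | succ m ih =>
    set y := Y.card with hy
    set Bh : W → Finset W := fun h => B.filter (fun z => z + h ∈ B) with hBh
    have hBhc : ∀ h, (Bh h).card ≤ y := fun h => (card_filter_le _ _).trans hB
    -- `h` is bad if the difference vanishes on the flat
    let bad : W → Prop := fun h => ∀ z ∈ V, g (x₀ + z + h) = g (x₀ + z)
    have e1 : ∑ x ∈ X, cb Y (m + 1) B x = ∑ h ∈ Y, ∑ x ∈ X, cb Y m (Bh h) x := by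
      simp only [cb]
      rw [sum_comm]
    rw [e1, ← sum_filter_add_sum_filter_not Y bad]
    have hgood : ∑ h ∈ Y.filter (fun h => ¬ bad h), ∑ x ∈ X, cb Y m (Bh h) x ≤
        y * ((m + 1) * y ^ m * δ) := by
      have h1 : ∀ h ∈ Y.filter (fun h => ¬ bad h), ∑ x ∈ X, cb Y m (Bh h) x ≤
          (m + 1) * y ^ m * δ := by
        intro h hh
        have hb := (mem_filter.1 hh).2
        simp only [bad, not_forall] at hb
        obtain ⟨z, hz, hzne⟩ := hb
        refine ih (Bh h) (hBhc h) (fun x => g (x + h) - g x)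
          ((hc.comp (continuous_id.add continuous_const)).sub hc) (hg h) ?_ hz
          (fun h' => hzne (by linarith))
        intro b hb'
        rw [hBh, mem_filter] at hb'
        show g (b + h) - g b = 0
        rw [h0 _ hb'.2, h0 _ hb'.1, sub_zero]
      refine (sum_le_sum h1).trans ?_
      rw [sum_const, smul_eq_mul]
      exact Nat.mul_le_mul_right _ (card_filter_le _ _)
    have hbad : ∑ h ∈ Y.filter bad, ∑ x ∈ X, cb Y m (Bh h) x ≤ y * (δ * y ^ m) := by
      have h1 : ∀ h ∈ Y.filter bad, ∑ x ∈ X, cb Y m (Bh h) x ≤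
          ∑ x ∈ X, if x + h ∈ B then y ^ m else 0 := by
        intro h _
        refine sum_le_sum fun x _ => ?_
        split_ifs with hx
        · exact cb_le Y m _ y (hBhc h) x
        · refine (cb_zero Y m _ ?_).le
          intro h'
          rw [hBh, mem_filter] at h'
          exact hx h'.2
      refine (sum_le_sum h1).trans ?_
      -- for every `b` the bad points form a small set
      have h2 : ∀ b ∈ B, (X.filter (fun x => bad (b - x))).card ≤ δ := by
        intro b hb
        apply hδ _ (filter_subset _ _)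
        exact bad_span hc hg (h0 b hb) hV hz₀ hne (fun x hx => hX x (mem_filter.1 hx).1)
          (fun x hx => (mem_filter.1 hx).2)
      rw [sum_comm]
      have h3 : ∀ x ∈ X, (∑ h ∈ Y.filter bad, if x + h ∈ B then y ^ m else 0) ≤
          ∑ b ∈ B, if bad (b - x) then y ^ m else 0 := by
        intro x _
        rw [← sum_filter, ← sum_filter, sum_const, sum_const, smul_eq_mul, smul_eq_mul]
        refine Nat.mul_le_mul_right _ ?_
        refine card_le_card_of_injOn (fun h => x + h) (fun h hh => ?_) fun a _ b _ hab => ?_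
        · have hh' : h ∈ (Y.filter bad).filter (fun h => x + h ∈ B) := hh
          rw [mem_filter, mem_filter] at hh'
          show x + h ∈ B.filter (fun b => bad (b - x))
          rw [mem_filter]
          refine ⟨hh'.2, ?_⟩
          rw [add_sub_cancel_left]
          exact hh'.1.2
        · exact add_left_cancel hab
      refine (sum_le_sum h3).trans ?_
      rw [sum_comm]
      have h4 : ∀ b ∈ B, (∑ x ∈ X, if bad (b - x) then y ^ m else 0) ≤ δ * y ^ m := by
        intro b hb
        rw [← sum_filter, sum_const, smul_eq_mul]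
        exact Nat.mul_le_mul_right _ (h2 b hb)
      refine (sum_le_sum h4).trans ?_
      rw [sum_const, smul_eq_mul]
      exact Nat.mul_le_mul_right _ hB
    calc ∑ h ∈ Y.filter bad, ∑ x ∈ X, cb Y m (Bh h) x +
        ∑ h ∈ Y.filter (fun h => ¬ bad h), ∑ x ∈ X, cb Y m (Bh h) x
        ≤ y * (δ * y ^ m) + y * ((m + 1) * y ^ m * δ) := add_le_add hbad hgood
      _ = (m + 1 + 1) * y ^ (m + 1) * δ := by ring

end top

end Pool.Agent.U425.QH
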