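import Mathlib

set_option autoImplicit false

/-!
# Sets of natural numbers embedded in real algebraic sets
-/

namespace Pool.Agent.U425.QH

/-- The finite set `A` of natural numbers is embedded in a real algebraic set defined by polynomials
of degree at most `e`, in a space `ℝ ^ D` of any dimension: there are an injective map
`f : A → ℝ ^ D` which preserves the equalities between sums of two elements (a Freiman homomorphism
of order two) and a set `Q` (finite or infinite) of real polynomials of degree at most `e` which
vanish at all the points `f a`; and no affine subspace of `ℝ ^ D` contained in the common zero set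
`Z` of the `q ∈ Q` contains `f a` for more than `k` of the `a ∈ A`. (For `k = 1` the last condition
says that the line through two different points `f a`, `f b` is never contained in `Z`.) -/
def OnAlg (e k : ℕ) (A : Finset ℕ) : Prop :=
  ∃ (D : ℕ) (f : ℕ → Fin D → ℝ) (Q : Set (MvPolynomial (Fin D) ℝ)),
    (∀ q ∈ Q, q.totalDegree ≤ e) ∧ Set.InjOn f (A : Set ℕ) ∧
    (∀ a ∈ A, ∀ b ∈ A, ∀ c ∈ A, ∀ d ∈ A, a + b = c + d → f a + f b = f c + f d) ∧
    (∀ q ∈ Q, ∀ a ∈ A, MvPolynomial.eval (f a) q = 0) ∧
    ∀ F : AffineSubspace ℝ (Fin D → ℝ), (∀ q ∈ Q, ∀ p ∈ F, MvPolynomial.eval p q = 0) →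
      {a | a ∈ A ∧ f a ∈ F}.ncard ≤ k

/-- The largest size of a subset of `{1, ..., N}` without three-term arithmetic progressions which is
embedded in a real algebraic set, defined by polynomials of degree at most `e`, which does not
contain the line through two of its points. -/
noncomputable def rAlg (e N : ℕ) : ℕ :=
  sSup {n | ∃ A : Finset ℕ, A ⊆ Finset.Icc 1 N ∧ ThreeAPFree (A : Set ℕ) ∧ OnAlg e 1 A ∧ A.card = n}

end Pool.Agent.U425.QH
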