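import Pool.Agent.U425.QH.Cube

set_option autoImplicit false
set_option linter.unusedSectionVars false

/-!
# Sets on hypersurfaces: the bound in terms of the dimension
-/

namespace Pool.Agent.U425.QH

open Finset Module

variable {W : Type*} [AddCommGroup W] [Module ℝ W] [TopologicalSpace W]
  [IsTopologicalAddGroup W] [ContinuousSMul ℝ W]

/-- the base points of many cubes -/
noncomputable def Pop (Y : Finset W) (m : ℕ) (A : Finset W) : Finset W := by
  classical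
  exact A.filter (fun x => (A.card : ℝ) ^ 2 ^ m ≤
    2 * A.card * (Y.card : ℝ) ^ ex m * (cb Y m A x : ℝ))

theorem Pop_sub (Y : Finset W) (m : ℕ) (A : Finset W) : Pop Y m A ⊆ A := by
  classical
  unfold Pop
  exact filter_subset _ _

theorem Pop_mem {Y : Finset W} {m : ℕ} {A : Finset W} {x : W} (hx : x ∈ Pop Y m A) :
    (A.card : ℝ) ^ 2 ^ m ≤ 2 * A.card * (Y.card : ℝ) ^ ex m * (cb Y m A x : ℝ) := by
  classical
  unfold Pop at hx
  exact (mem_filter.1 hx).2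

/-- many points are base points of many cubes -/
theorem Pop_card (Y : Finset W) (m : ℕ) (A : Finset W) (hA : A.Nonempty)
    (hY : ∀ a ∈ A, ∀ b ∈ A, a - b ∈ Y) :
    (A.card : ℝ) ^ (ex m + 1) ≤ 2 * (Y.card : ℝ) ^ ex m * ((Pop Y m A).card : ℝ) := by
  classical
  have hn : (0 : ℝ) < A.card := by exact_mod_cast hA.card_pos
  set n : ℝ := (A.card : ℝ) with hn'
  set y : ℝ := (Y.card : ℝ) with hy'
  have hy0 : 0 ≤ y := Nat.cast_nonneg _
  have h1 := cb_low Y m A hY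
  have hle : ∀ x, (cb Y m A x : ℝ) ≤ n ^ m := fun x => by
    have := cb_le Y m A A.card le_rfl x
    rw [hn']
    exact_mod_cast this
  have h2 : ∑ x ∈ A, 2 * n * y ^ ex m * (cb Y m A x : ℝ) ≤
      ((Pop Y m A).card : ℝ) * (2 * n * y ^ ex m * n ^ m) + n * n ^ 2 ^ m := by
    have h3 : ∀ x ∈ A, 2 * n * y ^ ex m * (cb Y m A x : ℝ) ≤
        (if x ∈ Pop Y m A then 2 * n * y ^ ex m * n ^ m else 0) + n ^ 2 ^ m := by
      intro x hx
      split_ifs with hP
      · have : 2 * n * y ^ ex m * (cb Y m A x : ℝ) ≤ 2 * n * y ^ ex m * n ^ m := by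
          gcongr
          exact hle x
        have h4 : 0 ≤ n ^ 2 ^ m := by positivity
        linarith
      · have : ¬ (n ^ 2 ^ m ≤ 2 * n * y ^ ex m * (cb Y m A x : ℝ)) := by
          intro h'
          apply hP
          unfold Pop
          exact mem_filter.2 ⟨hx, h'⟩
        linarith
    refine (sum_le_sum h3).trans ?_
    rw [sum_add_distrib, ← sum_filter, sum_const, sum_const, nsmul_eq_mul, nsmul_eq_mul]
    have h5 : A.filter (fun x => x ∈ Pop Y m A) = Pop Y m A := by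
      rw [filter_mem_eq_inter]
      exact inter_eq_right.2 (Pop_sub Y m A)
    rw [h5]
  have h6 : 2 * n * n ^ 2 ^ m ≤ ∑ x ∈ A, 2 * n * y ^ ex m * (cb Y m A x : ℝ) := by
    rw [← mul_sum]
    calc 2 * n * n ^ 2 ^ m ≤ 2 * n * (y ^ ex m * ∑ x ∈ A, (cb Y m A x : ℝ)) := by gcongr
      _ = _ := by ring
  have h7 : n * n ^ 2 ^ m ≤ ((Pop Y m A).card : ℝ) * (2 * n * y ^ ex m * n ^ m) := by linarith
  have h8 : n * n ^ 2 ^ m = n ^ (ex m + 1) * n ^ (m + 1) := by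
    rw [← pow_add, ← pow_succ']
    congr 1
    have := ex_eq m
    omega
  rw [h8] at h7
  have h9 : ((Pop Y m A).card : ℝ) * (2 * n * y ^ ex m * n ^ m) =
      2 * y ^ ex m * ((Pop Y m A).card : ℝ) * n ^ (m + 1) := by ring
  rw [h9] at h7
  exact le_of_mul_le_mul_right h7 (by positivity)

/-- **One step**: a piece of smaller dimension, if the function does not vanish on the flat. -/
theorem step (A : Finset W) (hA : A.Nonempty) (Y : Finset W) (m : ℕ) {L : ℝ}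
    (hAY : A.card ≤ Y.card) (hL : (Y.card : ℝ) ≤ L * A.card) (q : W → ℝ) (hc : Continuous q)
    (hq : PD (m + 1) q) (h0 : ∀ a ∈ A, q a = 0) (X : Finset W) (hX : X ⊆ Pop Y m A)
    {x₀ : W} (hx₀ : x₀ ∈ X) {z₀ : W} (hz₀ : z₀ ∈ vectorSpan ℝ (X : Set W))
    (hne : q (x₀ + z₀) ≠ 0) :
    ∃ X' ⊆ X, vectorSpan ℝ (X' : Set W) ≠ vectorSpan ℝ (X : Set W) ∧
      (X.card : ℝ) ≤ 2 * (m + 1) * L ^ (2 ^ m - 1) * (X'.card : ℝ) := by
  classical
  set V := vectorSpan ℝ (X : Set W) with hVdef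
  have hn : (0 : ℝ) < A.card := by exact_mod_cast hA.card_pos
  set n : ℝ := (A.card : ℝ) with hn'
  set y : ℝ := (Y.card : ℝ) with hy'
  have hy1 : n ≤ y := by rw [hn', hy']; exact_mod_cast hAY
  have hy0 : 0 < y := lt_of_lt_of_le hn hy1
  have hV : V ≠ ⊥ := by
    intro hV
    rw [hV, Submodule.mem_bot] at hz₀
    rw [hz₀, add_zero] at hne
    exact hne (h0 x₀ (Pop_sub Y m A (hX hx₀)))
  have hXV : ∀ x ∈ X, x - x₀ ∈ V := fun x hx =>
    vsub_mem_vectorSpan ℝ (mem_coe.2 hx) (mem_coe.2 hx₀)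
  -- the largest piece of smaller dimension
  let P : Finset (Finset W) := X.powerset.filter (fun X' => vectorSpan ℝ (X' : Set W) ≠ V)
  have hP : P.Nonempty := by
    refine ⟨∅, mem_filter.2 ⟨empty_mem_powerset _, ?_⟩⟩
    rw [coe_empty, vectorSpan_empty]
    exact hV.symm
  obtain ⟨X', hX'P, hmax⟩ := exists_max_image P (fun X' => X'.card) hP
  have hX' := mem_filter.1 hX'P
  refine ⟨X', mem_powerset.1 hX'.1, hX'.2, ?_⟩
  have hδ : ∀ X'' ⊆ X, vectorSpan ℝ (X'' : Set W) ≠ V → X''.card ≤ X'.card := fun X'' h1 h2 =>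
    hmax X'' (mem_filter.2 ⟨mem_powerset.2 h1, h2⟩)
  have hup := cb_up Y X V x₀ hV hXV X'.card hδ m A hAY q hc hq h0 hz₀ hne
  have hup' : ∑ x ∈ X, (cb Y m A x : ℝ) ≤ (m + 1) * y ^ m * (X'.card : ℝ) := by
    rw [hy']
    exact_mod_cast hup
  have h1 : (X.card : ℝ) * n ^ 2 ^ m ≤ 2 * n * y ^ ex m * ((m + 1) * y ^ m * (X'.card : ℝ)) := by
    calc (X.card : ℝ) * n ^ 2 ^ m = ∑ x ∈ X, n ^ 2 ^ m := by rw [sum_const, nsmul_eq_mul]
      _ ≤ ∑ x ∈ X, 2 * n * y ^ ex m * (cb Y m A x : ℝ) := sum_le_sum fun x hx => Pop_mem (hX hx)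
      _ = 2 * n * y ^ ex m * ∑ x ∈ X, (cb Y m A x : ℝ) := by rw [mul_sum]
      _ ≤ _ := by gcongr
  -- `y ≤ L n`
  have h2m : 1 ≤ 2 ^ m := Nat.one_le_two_pow
  have hL0 : 0 ≤ L := by
    by_contra h
    rw [not_le] at h
    have : L * n < 0 := mul_neg_of_neg_of_pos h hn
    linarith
  have h3 : y ^ (2 ^ m - 1) ≤ L ^ (2 ^ m - 1) * n ^ (2 ^ m - 1) := by
    rw [← mul_pow]
    exact pow_le_pow_left₀ hy0.le hL _
  have h4 : n ^ 2 ^ m = n ^ (2 ^ m - 1) * n := by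
    rw [← pow_succ]
    congr 1
    omega
  have h5 : y ^ ex m * y ^ m = y ^ (2 ^ m - 1) := by
    rw [← pow_add]
    congr 1
    have := ex_eq m
    omega
  have h6 : 2 * n * y ^ ex m * ((m + 1) * y ^ m * (X'.card : ℝ)) =
      2 * (m + 1) * (y ^ ex m * y ^ m) * (X'.card : ℝ) * n := by ring
  rw [h6, h4, ← mul_assoc] at h1
  have h7 := le_of_mul_le_mul_right h1 hn
  rw [h5] at h7
  have h8 : (X.card : ℝ) * n ^ (2 ^ m - 1) ≤
      2 * (m + 1) * L ^ (2 ^ m - 1) * (X'.card : ℝ) * n ^ (2 ^ m - 1) := by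
    calc (X.card : ℝ) * n ^ (2 ^ m - 1) ≤ 2 * (m + 1) * y ^ (2 ^ m - 1) * (X'.card : ℝ) := h7
      _ ≤ 2 * (m + 1) * (L ^ (2 ^ m - 1) * n ^ (2 ^ m - 1)) * (X'.card : ℝ) := by gcongr
      _ = _ := by ring
  exact le_of_mul_le_mul_right h8 (by positivity)

/-- **The bound in terms of the dimension.** -/
theorem dim_bound {ι : Type*} (A : Finset W) (hA : A.Nonempty) (Y : Finset W) (m : ℕ) {L : ℝ}
    (hL1 : 1 ≤ L)
    (hAY : A.card ≤ Y.card) (hL : (Y.card : ℝ) ≤ L * A.card) (q : ι → W → ℝ)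
    (hc : ∀ i, Continuous (q i))
    (hq : ∀ i, PD (m + 1) (q i)) (h0 : ∀ i, ∀ a ∈ A, q i a = 0) (k : ℕ)
    (hk : ∀ X ⊆ A, (∀ i, ∀ x ∈ X, ∀ v ∈ vectorSpan ℝ (X : Set W), q i (x + v) = 0) → X.card ≤ k)
    (d : ℕ) (X : Finset W) (hX : X ⊆ Pop Y m A)
    (hd : finrank ℝ (vectorSpan ℝ (X : Set W)) ≤ d) :
    (X.card : ℝ) ≤ k * (2 * (m + 1) * L ^ (2 ^ m - 1)) ^ d := by
  classical
  have hM1 : (1 : ℝ) ≤ 2 * (m + 1) * L ^ (2 ^ m - 1) := by
    have h1 : (1 : ℝ) ≤ L ^ (2 ^ m - 1) := one_le_pow₀ hL1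
    have h2 : (0 : ℝ) ≤ m := Nat.cast_nonneg m
    nlinarith
  set M : ℝ := 2 * (m + 1) * L ^ (2 ^ m - 1) with hM
  have hM0 : 0 ≤ M := by linarith
  induction d generalizing X with
  | zero =>
    rw [pow_zero, mul_one]
    have h1 : X.card ≤ k := by
      apply hk X (hX.trans (Pop_sub Y m A))
      intro i x hx v hv
      have h2 : vectorSpan ℝ (X : Set W) = ⊥ := by
        have : FiniteDimensional ℝ (vectorSpan ℝ (X : Set W)) :=
          finiteDimensional_vectorSpan_of_finite ℝ X.finite_toSet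
        exact Submodule.finrank_eq_zero.1 (Nat.le_zero.1 hd)
      rw [h2, Submodule.mem_bot] at hv
      rw [hv, add_zero]
      exact h0 i x (Pop_sub Y m A (hX hx))
    exact_mod_cast h1
  | succ d ih =>
    by_cases hvan : ∀ i, ∀ x ∈ X, ∀ v ∈ vectorSpan ℝ (X : Set W), q i (x + v) = 0
    · have h1 : (X.card : ℝ) ≤ k := by exact_mod_cast hk X (hX.trans (Pop_sub Y m A)) hvan
      have h2 : (1 : ℝ) ≤ M ^ (d + 1) := one_le_pow₀ hM1
      calc (X.card : ℝ) ≤ k * 1 := by rw [mul_one]; exact h1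
        _ ≤ k * M ^ (d + 1) := by gcongr
    · simp only [not_forall] at hvan
      obtain ⟨i, x₀, hx₀, z₀, hz₀, hne⟩ := hvan
      obtain ⟨X', hX'X, hspan, hcard⟩ :=
        step A hA Y m hAY hL (q i) (hc i) (hq i) (h0 i) X hX hx₀ hz₀ hne
      have : FiniteDimensional ℝ (vectorSpan ℝ (X : Set W)) :=
        finiteDimensional_vectorSpan_of_finite ℝ X.finite_toSet
      have h1 : vectorSpan ℝ (X' : Set W) < vectorSpan ℝ (X : Set W) :=
        lt_of_le_of_ne (vectorSpan_mono ℝ (coe_subset.2 hX'X)) hspan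
      have h2 := Submodule.finrank_lt_finrank_of_lt h1
      have h3 := ih X' (hX'X.trans hX) (by omega)
      calc (X.card : ℝ) ≤ M * (X'.card : ℝ) := hcard
        _ ≤ M * (k * M ^ d) := by gcongr
        _ = k * M ^ (d + 1) := by ring

end Pool.Agent.U425.QH
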