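import Pool.Agent.U425.QH.Drop
import Pool.Agent.H137R2.Weak.Final

set_option autoImplicit false
set_option linter.unusedSectionVars false

/-!
# Growth of sums of points of algebraic sets, in any dimension
-/

namespace Pool.Agent.U425.QH

open Finset Module
open scoped Pointwise

/-- the weak Marton theorem for real vector spaces -/
theorem weak {D : ℕ} {K : ℝ} {A : Finset (Fin D → ℝ)} (hA : A.Nonempty)
    (hK : ((A + A).card : ℝ) ≤ K * A.card) :
    ∃ S T : Finset (Fin D → ℝ), (S.card : ℝ) ≤ 480 * Real.log K + 1 ∧ (T.card : ℝ) ≤ K ^ 185 ∧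
      ∀ a ∈ A, ∃ t ∈ T, a - t ∈ AddSubgroup.closure (S : Set (Fin D → ℝ)) := by
  classical
  have hd : (fun a b => Classical.propDecidable (a = b)) =
    (inferInstance : DecidableEq (Fin D → ℝ)) := Subsingleton.elim _ _
  have hK' : ((@Finset.card _ (@HAdd.hAdd _ _ _ (@instHAdd _ (@Finset.add _
    (fun a b => Classical.propDecidable (a = b)) _)) A A) : ℕ) : ℝ) ≤ K * A.card := by
    rw [hd]; exact hK
  obtain ⟨P, S, T, hP, -, -, h2, -, h4, h5⟩ := H137.Weak.weak_marton hA hK'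
  refine ⟨S, T, h2, h4, fun a ha => ?_⟩
  obtain ⟨t, ht, o, ⟨m, hm, hmo⟩, h6⟩ := h5 a ha
  refine ⟨t, ht, ?_⟩
  have hPbot : P = ⊥ := by
    rw [AddSubgroup.eq_bot_iff_forall]
    intro p hp
    have : IsOfFinAddOrder (⟨p, hp⟩ : P) := isOfFinAddOrder_of_finite _
    obtain ⟨n, hn, hn'⟩ := isOfFinAddOrder_iff_nsmul_eq_zero.1 this
    have h7 : n • p = 0 := by
      have := congrArg Subtype.val hn'
      simpa using this
    rcases smul_eq_zero.1 h7 with h8 | h8
    · omega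
    · exact h8
  have ho : o = 0 := by
    rcases smul_eq_zero.1 hmo with h8 | h8
    · rw [h8] at hm
      exact absurd hm (by decide)
    · exact h8
  rw [hPbot, bot_sup_eq, ho, sub_zero] at h6
  exact h6

/-- **The main inequality.** -/
theorem main {D : ℕ} (m : ℕ) (A : Finset (Fin D → ℝ)) (hA : A.Nonempty)
    (Q : Set (MvPolynomial (Fin D) ℝ)) (hq : ∀ q ∈ Q, q.totalDegree ≤ m + 1)
    (h0 : ∀ q ∈ Q, ∀ a ∈ A, MvPolynomial.eval a q = 0) (k : ℕ)
    (hk : ∀ F : AffineSubspace ℝ (Fin D → ℝ), (∀ q ∈ Q, ∀ p ∈ F, MvPolynomial.eval p q = 0) →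
      {a | a ∈ A ∧ a ∈ F}.ncard ≤ k) {K : ℝ} (hK : ((A + A).card : ℝ) ≤ K * A.card) :
    ∃ r : ℕ, (r : ℝ) ≤ 480 * Real.log K + 1 ∧
      (A.card : ℝ) ≤ 2 * (K ^ 2) ^ ex m * K ^ 185 *
        (k * (2 * (m + 1) * (K ^ 2) ^ (2 ^ m - 1)) ^ r) := by
  classical
  have hn : (0 : ℝ) < A.card := by exact_mod_cast hA.card_pos
  have hK1 : 1 ≤ K := by
    have h1 : (A.card : ℝ) ≤ (A + A).card := by exact_mod_cast Finset.card_le_card_add_right hA
    nlinarith
  obtain ⟨S, T, hS, hT, hcov⟩ := weak hA hK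
  refine ⟨S.card, hS, ?_⟩
  set Y : Finset (Fin D → ℝ) := A - A with hYdef
  have hAY : A.card ≤ Y.card := Finset.card_le_card_sub_right hA
  have hL : (Y.card : ℝ) ≤ K ^ 2 * A.card := by
    have h1 := ruzsa_triangle_inequality_sub_add_add A A A
    have h2 : (Y.card : ℝ) * A.card ≤ (A + A).card * (A + A).card := by exact_mod_cast h1
    have h3 : ((A + A).card : ℝ) * (A + A).card ≤ (K * A.card) * (K * A.card) := by gcongr
    have h4 : (Y.card : ℝ) * A.card ≤ K ^ 2 * A.card * A.card := by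
      calc (Y.card : ℝ) * A.card ≤ (K * A.card) * (K * A.card) := h2.trans h3
        _ = _ := by ring
    exact le_of_mul_le_mul_right h4 hn
  have hYm : ∀ a ∈ A, ∀ b ∈ A, a - b ∈ Y := fun a ha b hb => sub_mem_sub ha hb
  have hL1 : (1 : ℝ) ≤ K ^ 2 := one_le_pow₀ hK1
  have hc : ∀ i : Q, Continuous (fun x : Fin D → ℝ => MvPolynomial.eval x (i : MvPolynomial _ ℝ)) :=
    fun i => MvPolynomial.continuous_eval _
  have hPD : ∀ i : Q, PD (m + 1) (fun x : Fin D → ℝ =>
      MvPolynomial.eval x (i : MvPolynomial _ ℝ)) := fun i => PD.eval _ (hq i i.2)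
  have h0' : ∀ i : Q, ∀ a ∈ A, MvPolynomial.eval a (i : MvPolynomial _ ℝ) = 0 := fun i => h0 i i.2
  have hk' : ∀ X ⊆ A, (∀ i : Q, ∀ x ∈ X, ∀ v ∈ vectorSpan ℝ (X : Set (Fin D → ℝ)),
      MvPolynomial.eval (x + v) (i : MvPolynomial _ ℝ) = 0) → X.card ≤ k := by
    intro X hX hvan
    have h1 := hk (affineSpan ℝ (X : Set (Fin D → ℝ))) (by
      intro q hqQ p hp
      rcases X.eq_empty_or_nonempty with rfl | ⟨x, hx⟩
      · rw [coe_empty, AffineSubspace.span_empty] at hp
        exact absurd hp (AffineSubspace.notMem_bot ℝ _ p)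
      · have hx' : x ∈ affineSpan ℝ (X : Set (Fin D → ℝ)) := subset_affineSpan ℝ _ (mem_coe.2 hx)
        have h2 : p -ᵥ x ∈ vectorSpan ℝ (X : Set (Fin D → ℝ)) := by
          rw [← direction_affineSpan]
          exact AffineSubspace.vsub_mem_direction hp hx'
        have h3 := hvan ⟨q, hqQ⟩ x hx _ h2
        rw [vsub_eq_sub, add_sub_cancel] at h3
        exact h3)
    refine le_trans ?_ h1
    rw [← Set.ncard_coe_finset X]
    refine Set.ncard_le_ncard (fun x hx => ?_) (A.finite_toSet.subset fun x hx => hx.1)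
    exact ⟨hX hx, subset_affineSpan ℝ _ hx⟩
  set M : ℝ := 2 * (m + 1) * (K ^ 2) ^ (2 ^ m - 1) with hM
  -- the pieces
  have hpiece : ∀ t ∈ T, (((Pop Y m A).filter (fun x => x - t ∈
      AddSubgroup.closure (S : Set (Fin D → ℝ)))).card : ℝ) ≤ k * M ^ S.card := by
    intro t _
    apply dim_bound A hA Y m hL1 hAY hL _ hc hPD h0' k hk' S.card _ (filter_subset _ _)
    have h1 : vectorSpan ℝ (((Pop Y m A).filter (fun x => x - t ∈
        AddSubgroup.closure (S : Set (Fin D → ℝ))) : Finset (Fin D → ℝ)) : Set (Fin D → ℝ)) ≤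
        Submodule.span ℝ (S : Set (Fin D → ℝ)) := by
      rw [vectorSpan_def, Submodule.span_le]
      have hcl : AddSubgroup.closure (S : Set (Fin D → ℝ)) ≤
          (Submodule.span ℝ (S : Set (Fin D → ℝ))).toAddSubgroup := by
        rw [AddSubgroup.closure_le]
        exact Submodule.subset_span
      rintro w ⟨a, ha, b, hb, rfl⟩
      have ha' := hcl (mem_filter.1 ha).2
      have hb' := hcl (mem_filter.1 hb).2
      have h2 : a - b = (a - t) - (b - t) := by abel
      show a - b ∈ Submodule.span ℝ (S : Set (Fin D → ℝ))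
      rw [h2]
      exact Submodule.sub_mem _ ha' hb'
    have h3 : finrank ℝ (Submodule.span ℝ (S : Set (Fin D → ℝ))) ≤ S.card :=
      finrank_span_finset_le_card S
    exact (Submodule.finrank_mono h1).trans h3
  have hPop : ((Pop Y m A).card : ℝ) ≤ K ^ 185 * (k * M ^ S.card) := by
    have h1 : Pop Y m A ⊆ T.biUnion (fun t => (Pop Y m A).filter (fun x => x - t ∈
        AddSubgroup.closure (S : Set (Fin D → ℝ)))) := by
      intro x hx
      obtain ⟨t, ht, htx⟩ := hcov x (Pop_sub Y m A hx)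
      exact mem_biUnion.2 ⟨t, ht, mem_filter.2 ⟨hx, htx⟩⟩
    have h2 : ((Pop Y m A).card : ℝ) ≤ ∑ t ∈ T, (((Pop Y m A).filter (fun x => x - t ∈
        AddSubgroup.closure (S : Set (Fin D → ℝ)))).card : ℝ) := by
      exact_mod_cast (card_le_card h1).trans card_biUnion_le
    have hM0 : 0 ≤ M := by positivity
    calc ((Pop Y m A).card : ℝ) ≤ ∑ t ∈ T, (k * M ^ S.card) := h2.trans (sum_le_sum hpiece)
      _ = T.card * (k * M ^ S.card) := by rw [sum_const, nsmul_eq_mul]
      _ ≤ K ^ 185 * (k * M ^ S.card) := by gcongr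
  -- the number of popular points
  have h1 := Pop_card Y m A hA hYm
  have h2 : (Y.card : ℝ) ^ ex m ≤ (K ^ 2) ^ ex m * (A.card : ℝ) ^ ex m := by
    rw [← mul_pow]
    exact pow_le_pow_left₀ (Nat.cast_nonneg _) hL _
  have h3 : (A.card : ℝ) * (A.card : ℝ) ^ ex m ≤
      2 * (K ^ 2) ^ ex m * ((Pop Y m A).card : ℝ) * (A.card : ℝ) ^ ex m := by
    calc (A.card : ℝ) * (A.card : ℝ) ^ ex m = (A.card : ℝ) ^ (ex m + 1) := by ring
      _ ≤ 2 * (Y.card : ℝ) ^ ex m * ((Pop Y m A).card : ℝ) := h1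
      _ ≤ 2 * ((K ^ 2) ^ ex m * (A.card : ℝ) ^ ex m) * ((Pop Y m A).card : ℝ) := by gcongr
      _ = _ := by ring
  have h4 := le_of_mul_le_mul_right h3 (by positivity)
  calc (A.card : ℝ) ≤ 2 * (K ^ 2) ^ ex m * ((Pop Y m A).card : ℝ) := h4
    _ ≤ 2 * (K ^ 2) ^ ex m * (K ^ 185 * (k * M ^ S.card)) := by gcongr
    _ = _ := by ring

theorem two_e_le (m : ℕ) : Real.log (2 * (m + 1)) ≤ 2 ^ m := by
  have h1 : Real.log (2 * (m + 1)) = Real.log 2 + Real.log (m + 1) := by
    rw [Real.log_mul (by norm_num) (by positivity)]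
  have h2 : Real.log (m + 1) ≤ m := by
    have := Real.log_le_sub_one_of_pos (show (0 : ℝ) < m + 1 by positivity)
    linarith
  have h3 : Real.log 2 ≤ 1 := by
    have := Real.log_two_lt_d9
    linarith
  have h4 : (m : ℝ) + 1 ≤ 2 ^ m := by
    have : m + 1 ≤ 2 ^ m := Nat.lt_two_pow_self
    exact_mod_cast this
  linarith

/-- **Growth**: sums of points of hypersurfaces of bounded degree, in any dimension. -/
theorem growth {D : ℕ} (m : ℕ) (A : Finset (Fin D → ℝ))
    (Q : Set (MvPolynomial (Fin D) ℝ)) (hq : ∀ q ∈ Q, q.totalDegree ≤ m + 1)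
    (h0 : ∀ q ∈ Q, ∀ a ∈ A, MvPolynomial.eval a q = 0) (k : ℕ) (hk1 : 1 ≤ k)
    (hk : ∀ F : AffineSubspace ℝ (Fin D → ℝ), (∀ q ∈ Q, ∀ p ∈ F, MvPolynomial.eval p q = 0) →
      {a | a ∈ A ∧ a ∈ F}.ncard ≤ k) :
    (A.card : ℝ) * Real.exp (1 / 35 * √(Real.log (A.card / k) / 2 ^ (m + 1))) ≤
      ((A + A).card : ℝ) := by
  classical
  rcases A.eq_empty_or_nonempty with rfl | hA
  · simp
  have hn : (0 : ℝ) < A.card := by exact_mod_cast hA.card_pos
  have hk0 : (0 : ℝ) < k := by exact_mod_cast hk1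
  have hAA : (A.card : ℝ) ≤ (A + A).card := by exact_mod_cast Finset.card_le_card_add_right hA
  by_cases hAk : A.card ≤ k
  · have h1 : Real.log (A.card / k) ≤ 0 := by
      apply Real.log_nonpos (by positivity)
      rw [div_le_one hk0]
      exact_mod_cast hAk
    have h2 : √(Real.log (A.card / k) / 2 ^ (m + 1)) = 0 := by
      apply Real.sqrt_eq_zero_of_nonpos
      exact div_nonpos_of_nonpos_of_nonneg h1 (by positivity)
    rw [h2, mul_zero, Real.exp_zero, mul_one]
    exact hAA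
  rw [not_le] at hAk
  have hA2 : 2 ≤ A.card := by omega
  set K : ℝ := ((A + A).card : ℝ) / A.card with hKdef
  have hK : ((A + A).card : ℝ) ≤ K * A.card := by
    rw [hKdef, div_mul_cancel₀ _ hn.ne']
  have hK32 : 3 / 2 ≤ K := by
    have h1 : 2 * A.card - 1 ≤ (A + A).card := by
      have := cauchy_davenport_of_isAddTorsionFree (s := A) (t := A) hA hA
      omega
    have h2 : (2 : ℝ) * A.card - 1 ≤ (A + A).card := by
      have : 2 * A.card ≤ (A + A).card + 1 := by omega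
      have : (2 : ℝ) * A.card ≤ (A + A).card + 1 := by exact_mod_cast this
      linarith
    rw [hKdef, le_div_iff₀ hn]
    have h3 : (2 : ℝ) ≤ A.card := by exact_mod_cast hA2
    linarith
  have hK0 : 0 < K := by linarith
  obtain ⟨r, hr, hmain⟩ := main m A hA Q hq h0 k hk hK
  set ℓ := Real.log K with hℓ
  have hℓ3 : 1 ≤ 3 * ℓ := by
    have h1 := Real.one_sub_inv_le_log_of_pos hK0
    have h2 : K⁻¹ ≤ 2 / 3 := by
      rw [inv_le_comm₀ hK0 (by norm_num)]
      norm_num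
      linarith
    linarith
  have hℓ0 : 0 < ℓ := by linarith
  -- take logarithms
  have hlog : Real.log (A.card / k) ≤ Real.log 2 + (2 * ex m + 185) * ℓ +
      r * (Real.log (2 * (m + 1)) + 2 * (2 ^ m - 1 : ℕ) * ℓ) := by
    have h1 : (A.card : ℝ) / k ≤ 2 * (K ^ 2) ^ ex m * K ^ 185 *
        (2 * (m + 1) * (K ^ 2) ^ (2 ^ m - 1)) ^ r := by
      rw [div_le_iff₀ hk0]
      calc (A.card : ℝ) ≤ _ := hmain
        _ = _ := by ring
    have h2 := Real.log_le_log (by positivity) h1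
    have h3 : (0 : ℝ) < 2 * (m + 1) := by positivity
    rw [Real.log_mul (by positivity) (by positivity), Real.log_mul (by positivity) (by positivity),
      Real.log_mul (by positivity) (by positivity), Real.log_pow, Real.log_pow, Real.log_pow,
      Real.log_pow, Real.log_mul (by positivity) (by positivity), Real.log_pow, Real.log_pow,
      ← hℓ] at h2
    refine h2.trans (le_of_eq ?_)
    push_cast
    ring
  set a : ℝ := 2 ^ m with ha
  have ha1 : 1 ≤ a := one_le_pow₀ (by norm_num)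
  have he1 : ((2 ^ m - 1 : ℕ) : ℝ) = a - 1 := by
    rw [Nat.cast_sub Nat.one_le_two_pow]
    push_cast
    rw [ha]
  have he2 : (ex m : ℝ) ≤ a - 1 := by
    have h1 := ex_eq m
    have h2 : ex m ≤ 2 ^ m - 1 := by omega
    calc (ex m : ℝ) ≤ ((2 ^ m - 1 : ℕ) : ℝ) := by exact_mod_cast h2
      _ = a - 1 := he1
  have hl2 : Real.log 2 ≤ 7 / 10 := by
    have := Real.log_two_lt_d9
    linarith
  have hfin : Real.log (A.card / k) ≤ 2450 * a * ℓ ^ 2 := by
    rw [he1] at hlog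
    have h1 : Real.log (2 * (m + 1)) ≤ a := two_e_le m
    have h2 : (2 * (ex m : ℝ) + 185) * ℓ ≤ (2 * a + 183) * ℓ := by
      have : 2 * (ex m : ℝ) + 185 ≤ 2 * a + 183 := by linarith
      exact mul_le_mul_of_nonneg_right this hℓ0.le
    have h3 : (r : ℝ) ≤ 483 * ℓ := by linarith
    have h4 : Real.log (2 * (m + 1)) + 2 * (a - 1) * ℓ ≤ (5 * a - 2) * ℓ := by
      have h5 : a ≤ a * (3 * ℓ) := le_mul_of_one_le_right (by linarith) hℓ3
      nlinarith
    have h6 : (r : ℝ) * (Real.log (2 * (m + 1)) + 2 * (a - 1) * ℓ) ≤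
        483 * ℓ * ((5 * a - 2) * ℓ) := by
      have h7 : 0 ≤ Real.log (2 * (m + 1)) + 2 * (a - 1) * ℓ := by
        have h8 : 0 ≤ Real.log (2 * (m + 1)) := by
          apply Real.log_nonneg
          have : (0 : ℝ) ≤ m := Nat.cast_nonneg m
          linarith
        have h9 : 0 ≤ 2 * (a - 1) * ℓ := by
          apply mul_nonneg _ hℓ0.le
          linarith
        linarith
      calc (r : ℝ) * (Real.log (2 * (m + 1)) + 2 * (a - 1) * ℓ)
          ≤ 483 * ℓ * (Real.log (2 * (m + 1)) + 2 * (a - 1) * ℓ) := by gcongr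
        _ ≤ 483 * ℓ * ((5 * a - 2) * ℓ) := by gcongr
    have h8 : Real.log 2 ≤ 7 * ℓ ^ 2 := by nlinarith
    have h9 : (2 * a + 183) * ℓ ≤ (6 * a + 549) * ℓ ^ 2 := by
      have : (2 * a + 183) * ℓ * 1 ≤ (2 * a + 183) * ℓ * (3 * ℓ) := by gcongr
      nlinarith
    have h10 : 483 * ℓ * ((5 * a - 2) * ℓ) = (2415 * a - 966) * ℓ ^ 2 := by ring
    have h11 : Real.log (A.card / k) ≤ (7 + (6 * a + 549) + (2415 * a - 966)) * ℓ ^ 2 := by
      nlinarith
    refine h11.trans ?_
    have : 7 + (6 * a + 549) + (2415 * a - 966) ≤ 2450 * a := by linarith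
    exact mul_le_mul_of_nonneg_right this (sq_nonneg ℓ)
  have hsq : 1 / 35 * √(Real.log (A.card / k) / 2 ^ (m + 1)) ≤ ℓ := by
    have h1 : √(Real.log (A.card / k) / 2 ^ (m + 1)) ≤ 35 * ℓ := by
      rw [Real.sqrt_le_left (by positivity), div_le_iff₀ (by positivity)]
      calc Real.log (A.card / k) ≤ 2450 * a * ℓ ^ 2 := hfin
        _ = (35 * ℓ) ^ 2 * 2 ^ (m + 1) := by rw [ha]; ring
    linarith
  calc (A.card : ℝ) * Real.exp (1 / 35 * √(Real.log (A.card / k) / 2 ^ (m + 1)))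
      ≤ A.card * Real.exp ℓ := by gcongr
    _ = A.card * K := by rw [hℓ, Real.exp_log hK0]
    _ = (A + A).card := by rw [hKdef, mul_div_cancel₀ _ hn.ne']

end Pool.Agent.U425.QH
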