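import Pool.Agent.U425.QH.Defs
import Pool.Agent.U425.QH.Growth

set_option autoImplicit false

/-!
# Sets of integers embedded in real algebraic sets
-/

namespace Pool.Agent.U425.QH

open Finset
open scoped Pointwise

/-- the sumset of the image -/
theorem card_image_add {D : ℕ} (B : Finset ℕ) (f : ℕ → Fin D → ℝ)
    (hf : ∀ a ∈ B, ∀ b ∈ B, ∀ c ∈ B, ∀ d ∈ B, a + b = c + d → f a + f b = f c + f d) :
    (B.image f + B.image f).card ≤ (B + B).card := by
  classical
  have hex : ∀ s ∈ B + B, ∃ p : ℕ × ℕ, p.1 ∈ B ∧ p.2 ∈ B ∧ p.1 + p.2 = s := by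
    intro s hs
    obtain ⟨a, ha, b, hb, rfl⟩ := mem_add.1 hs
    exact ⟨(a, b), ha, hb, rfl⟩
  choose! g hg1 hg2 hg3 using hex
  refine le_trans (card_le_card ?_) (card_image_le (s := B + B)
    (f := fun s => f (g s).1 + f (g s).2))
  intro w hw
  obtain ⟨u, hu, v, hv, rfl⟩ := mem_add.1 hw
  obtain ⟨a, ha, rfl⟩ := mem_image.1 hu
  obtain ⟨b, hb, rfl⟩ := mem_image.1 hv
  have hs : a + b ∈ B + B := add_mem_add ha hb
  exact mem_image.2 ⟨a + b, hs, hf _ (hg1 _ hs) _ (hg2 _ hs) _ ha _ hb (hg3 _ hs)⟩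

/-- the inequality between the size and the sumset -/
theorem hyp_growth {e k : ℕ} (he : 1 ≤ e) (hk : 1 ≤ k) {B : Finset ℕ} (hB : OnAlg e k B) :
    (B.card : ℝ) * Real.exp (1 / 35 * √(Real.log (B.card / k) / 2 ^ e)) ≤
      ((B + B).card : ℝ) := by
  classical
  obtain ⟨D, f, Q, hq, hinj, hf, h0, hF⟩ := hB
  obtain ⟨m, rfl⟩ : ∃ m, e = m + 1 := ⟨e - 1, by omega⟩
  have hcard : (B.image f).card = B.card := card_image_of_injOn hinj
  have h1 := growth m (B.image f) Q hq (by
    intro q hqQ a ha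
    obtain ⟨b, hb, rfl⟩ := mem_image.1 ha
    exact h0 q hqQ b hb) k hk (by
    intro F hFq
    refine le_trans ?_ (hF F hFq)
    have h2 : {a | a ∈ B.image f ∧ a ∈ F} ⊆ f '' {a | a ∈ B ∧ f a ∈ F} := by
      rintro a ⟨ha, haF⟩
      obtain ⟨b, hb, rfl⟩ := mem_image.1 ha
      exact ⟨b, ⟨hb, haF⟩, rfl⟩
    have hfin : {a | a ∈ B ∧ f a ∈ F}.Finite := B.finite_toSet.subset fun x hx => hx.1
    exact (Set.ncard_le_ncard h2 (hfin.image f)).trans (Set.ncard_image_le hfin))
  rw [hcard] at h1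
  refine h1.trans ?_
  exact_mod_cast card_image_add B f hf

/-- sets of integers in `{1, ..., N}` -/
theorem hyp_Icc {e k N : ℕ} (he : 1 ≤ e) (hk : 1 ≤ k) {B : Finset ℕ} (hN : B ⊆ Icc 1 N)
    (hB : OnAlg e k B) :
    (B.card : ℝ) ≤ 2 * k * N * Real.exp (-(1 / 50) * √(Real.log N / 2 ^ e)) := by
  classical
  rcases B.eq_empty_or_nonempty with rfl | hne
  · simp only [card_empty, CharP.cast_eq_zero]
    positivity
  have hN1 : 1 ≤ N := by
    obtain ⟨b, hb⟩ := hne
    have := mem_Icc.1 (hN hb)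
    omega
  have hN0 : (0 : ℝ) < N := by exact_mod_cast hN1
  have hk0 : (0 : ℝ) < k := by exact_mod_cast hk
  have hk1 : (1 : ℝ) ≤ k := by exact_mod_cast hk
  have hlogN : 0 ≤ Real.log N := Real.log_nonneg (by exact_mod_cast hN1)
  set x : ℝ := √(Real.log N / 2 ^ e) with hx
  have hx0 : 0 ≤ x := Real.sqrt_nonneg _
  by_cases hbig : √(N : ℝ) ≤ B.card / k
  · -- large sets
    have h1 := hyp_growth he hk hB
    have h2 : ((B + B).card : ℝ) ≤ 2 * N := by
      have h3 : B + B ⊆ Icc 1 (2 * N) := by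
        intro s hs
        obtain ⟨a, ha, b, hb, rfl⟩ := mem_add.1 hs
        have h4 := mem_Icc.1 (hN ha)
        have h5 := mem_Icc.1 (hN hb)
        rw [mem_Icc]
        omega
      have h6 := card_le_card h3
      rw [Nat.card_Icc, Nat.add_sub_cancel] at h6
      exact_mod_cast h6
    have h7 : 1 / 50 * x ≤ 1 / 35 * √(Real.log (B.card / k) / 2 ^ e) := by
      have h8 : Real.log N / 2 ≤ Real.log (B.card / k) := by
        have h9 := Real.log_le_log (Real.sqrt_pos.2 hN0) hbig
        rwa [Real.log_sqrt hN0.le] at h9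
      have h10 : (35 / 50 * x) ^ 2 ≤ Real.log (B.card / k) / 2 ^ e := by
        rw [mul_pow, hx, Real.sq_sqrt (by positivity)]
        have h11 : Real.log N / 2 / 2 ^ e ≤ Real.log (B.card / k) / 2 ^ e := by gcongr
        refine le_trans ?_ h11
        have h12 : 0 ≤ Real.log N / 2 ^ e := by positivity
        calc (35 / 50 : ℝ) ^ 2 * (Real.log N / 2 ^ e) ≤ 1 / 2 * (Real.log N / 2 ^ e) := by
              gcongr
              norm_num
          _ = Real.log N / 2 / 2 ^ e := by ring
      have h13 := Real.le_sqrt_of_sq_le h10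
      linarith
    have h14 : (B.card : ℝ) * Real.exp (1 / 50 * x) ≤ 2 * N :=
      (mul_le_mul_of_nonneg_left (Real.exp_le_exp.2 h7) (Nat.cast_nonneg _)).trans
        (h1.trans h2)
    have h15 : (B.card : ℝ) ≤ 2 * N * Real.exp (-(1 / 50) * x) := by
      have h16 : Real.exp (-(1 / 50) * x) * Real.exp (1 / 50 * x) = 1 := by
        rw [← Real.exp_add, ← Real.exp_zero]
        congr 1
        ring
      have h17 := mul_le_mul_of_nonneg_right h14 (Real.exp_pos (-(1 / 50) * x)).le
      calc (B.card : ℝ) = B.card * (Real.exp (-(1 / 50) * x) * Real.exp (1 / 50 * x)) := by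
            rw [h16, mul_one]
        _ = (B.card : ℝ) * Real.exp (1 / 50 * x) * Real.exp (-(1 / 50) * x) := by ring
        _ ≤ _ := h17
    refine h15.trans ?_
    have h18 : 0 ≤ N * Real.exp (-(1 / 50) * x) := by positivity
    nlinarith
  · -- small sets
    rw [not_le, div_lt_iff₀ hk0] at hbig
    have h1 : Real.exp (1 / 50 * x) ≤ 2 * √(N : ℝ) := by
      have h2 : x ≤ (1 + Real.log N) / 2 := by
        have h3 : x ≤ √(Real.log N) := by
          rw [hx]
          apply Real.sqrt_le_sqrt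
          exact div_le_self hlogN (one_le_pow₀ (by norm_num))
        have h4 : √(Real.log N) ≤ (1 + Real.log N) / 2 := by
          have h5 := Real.sq_sqrt hlogN
          nlinarith [sq_nonneg (√(Real.log N) - 1)]
        linarith
      have h6 : 1 / 50 * x ≤ Real.log (2 * √(N : ℝ)) := by
        rw [Real.log_mul (by norm_num) (Real.sqrt_pos.2 hN0).ne', Real.log_sqrt hN0.le]
        have h7 := Real.log_two_gt_d9
        linarith
      calc Real.exp (1 / 50 * x) ≤ Real.exp (Real.log (2 * √(N : ℝ))) := Real.exp_le_exp.2 h6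
        _ = 2 * √(N : ℝ) := Real.exp_log (by positivity)
    have h8 : Real.exp (-(1 / 50) * x) * Real.exp (1 / 50 * x) = 1 := by
      rw [← Real.exp_add, ← Real.exp_zero]
      congr 1
      ring
    have h9 : 1 ≤ Real.exp (-(1 / 50) * x) * (2 * √(N : ℝ)) := by
      calc (1 : ℝ) = Real.exp (-(1 / 50) * x) * Real.exp (1 / 50 * x) := h8.symm
        _ ≤ Real.exp (-(1 / 50) * x) * (2 * √(N : ℝ)) := by gcongr
    have h10 : √(N : ℝ) * √(N : ℝ) = N := Real.mul_self_sqrt hN0.le
    calc (B.card : ℝ) ≤ √(N : ℝ) * k := hbig.le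
      _ = √(N : ℝ) * k * 1 := by ring
      _ ≤ √(N : ℝ) * k * (Real.exp (-(1 / 50) * x) * (2 * √(N : ℝ))) := by gcongr
      _ = 2 * k * (√(N : ℝ) * √(N : ℝ)) * Real.exp (-(1 / 50) * x) := by ring
      _ = _ := by rw [h10]

/-! ### Behrend's sets -/

open Behrend in
theorem behrend_num {N : ℕ} (hN : 4096 ≤ N) :
    (N : ℝ) * Real.exp (-4 * √(Real.log N)) <
      ((dValue N : ℝ) ^ (nValue N - 2) / (nValue N : ℝ)) := by
  let n := nValue N
  have hn : 0 < (n : ℝ) := Nat.cast_pos.2 (nValue_pos <| hN.trans' <| by norm_num1)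
  have hN₀ : 0 < (N : ℝ) := Nat.cast_pos.2 (hN.trans' <| by norm_num1)
  have hn₂ : 2 < n := three_le_nValue <| hN.trans' <| by norm_num1
  calc
    _ ≤ (N ^ (nValue N : ℝ)⁻¹ / Real.exp 1 : ℝ) ^ (n - 2) / n := ?_
    _ < _ := by gcongr; exacts [(tsub_pos_of_lt hn₂).ne', bound hN]
  rw [← Real.rpow_natCast, Real.div_rpow (Real.rpow_nonneg hN₀.le _) (Real.exp_pos _).le,
    ← Real.rpow_mul hN₀.le,
    inv_mul_eq_div, Nat.cast_sub hn₂.le, Nat.cast_two, same_sub_div hn.ne', Real.exp_one_rpow,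
    div_div, Real.rpow_sub hN₀, Real.rpow_one, div_div, div_eq_mul_inv]
  gcongr _ * ?_
  rw [mul_inv, mul_inv, ← Real.exp_neg, ← Real.rpow_neg (Nat.cast_nonneg _), neg_sub,
    ← div_eq_mul_inv]
  have : Real.exp (-4 * √(Real.log N)) =
      Real.exp (-2 * √(Real.log N)) * Real.exp (-2 * √(Real.log N)) := by
    rw [← Real.exp_add, ← add_mul]
    norm_num
  rw [this]
  gcongr
  · rw [← Real.le_log_iff_exp_le (Real.rpow_pos_of_pos hN₀ _), Real.log_rpow hN₀,
      ← le_div_iff₀, mul_div_assoc,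
      Real.div_sqrt, neg_mul, neg_le_neg_iff, div_mul_eq_mul_div, div_le_iff₀ hn]
    · gcongr
      apply Nat.le_ceil
    refine Real.sqrt_pos.2 (Real.log_pos ?_)
    rw [Nat.one_lt_cast]
    exact hN.trans_lt' (by norm_num1)
  · refine (exp_neg_two_mul_le <| Real.sqrt_pos.2 <| Real.log_pos ?_).le
    rw [Nat.one_lt_cast]
    exact hN.trans_lt' (by norm_num1)

/-- two points of a sphere with midpoint on the sphere are equal -/
theorem mid_sphere {n : ℕ} {k : ℝ} {x y : Fin n → ℝ} (hx : ∑ i, x i ^ 2 = k)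
    (hy : ∑ i, y i ^ 2 = k) (hm : ∑ i, ((x i + y i) / 2) ^ 2 = k) : x = y := by
  have h1 : ∑ i, (x i - y i) ^ 2 = 0 := by
    have h2 : ∑ i, (x i - y i) ^ 2 =
        2 * ∑ i, x i ^ 2 + 2 * ∑ i, y i ^ 2 - 4 * ∑ i, ((x i + y i) / 2) ^ 2 := by
      rw [mul_sum, mul_sum, mul_sum, ← sum_add_distrib, ← sum_sub_distrib]
      refine sum_congr rfl fun i _ => ?_
      ring
    rw [h2, hx, hy, hm]
    ring
  funext i
  have h3 := (sum_eq_zero_iff_of_nonneg (fun i _ => sq_nonneg (x i - y i))).1 h1 i (mem_univ i)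
  have h4 : x i - y i = 0 := by
    rcases sq_eq_zero_iff.1 h3 with h
    exact h
  linarith

open Behrend in
theorem behrend_set {N : ℕ} (hN : 4096 ≤ N) : ∃ A : Finset ℕ, A ⊆ Icc 1 N ∧
    ThreeAPFree (A : Set ℕ) ∧ OnAlg 2 1 A ∧
    (N : ℝ) * Real.exp (-4 * √(Real.log N)) ≤ (A.card : ℝ) := by
  classical
  set n := nValue N with hn
  set d := dValue N with hd
  have hd0 : 0 < d := dValue_pos (hN.trans' <| by norm_num1)
  have hn2 : 2 < n := three_le_nValue <| hN.trans' <| by norm_num1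
  have hpow : (2 * d - 1) ^ n ≤ N := le_N (hN.trans' <| by norm_num1)
  obtain ⟨k, hk⟩ := exists_large_sphere n d
  have hlow : (N : ℝ) * Real.exp (-4 * √(Real.log N)) ≤ ((sphere n d k).card : ℝ) := by
    refine (behrend_num hN).le.trans (le_trans (le_of_eq ?_) hk)
    rw [← hn, ← hd]
    push_cast
    rw [mul_comm (n : ℝ), ← div_div, pow_sub₀ _ _ hn2.le, ← div_eq_mul_inv]
    exact_mod_cast hd0.ne'
  -- the sums of two points determine the sums of the numbers
  have hbox : ∀ x ∈ sphere n d k, ∀ i, x i < d := fun x hx =>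
    mem_box.1 (sphere_subset_box hx)
  have hsum : ∀ x ∈ sphere n d k, ∀ y ∈ sphere n d k,
      x + y ∈ {x : Fin n → ℕ | ∀ i, x i < 2 * d - 1} := by
    intro x hx y hy i
    have h1 := hbox x hx i
    have h2 := hbox y hy i
    show x i + y i < 2 * d - 1
    omega
  have hinjmap : ∀ x ∈ sphere n d k, ∀ y ∈ sphere n d k, Behrend.map (2 * d - 1) x = Behrend.map (2 * d - 1) y →
      x = y := by
    intro x hx y hy hxy
    refine map_injOn (n := n) (d := 2 * d - 1) ?_ ?_ hxy
    · intro i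
      have := hbox x hx i
      omega
    · intro i
      have := hbox y hy i
      omega
  set A : Finset ℕ := (sphere n d k).image (fun x => Behrend.map (2 * d - 1) x + 1) with hA
  have hmem : ∀ a ∈ A, ∃ x ∈ sphere n d k, Behrend.map (2 * d - 1) x + 1 = a := fun a ha =>
    mem_image.1 ha
  choose! g hg1 hg2 using hmem
  have hsphere : ∀ x ∈ sphere n d k, ∑ i, ((x i : ℕ) : ℝ) ^ 2 = k := by
    intro x hx
    have := (mem_filter.1 hx).2
    exact_mod_cast this
  refine ⟨A, ?_, ?_, ?_, ?_⟩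
  · intro a ha
    obtain ⟨x, hx, rfl⟩ := mem_image.1 ha
    rw [mem_Icc]
    refine ⟨by omega, ?_⟩
    have h1 : Behrend.map (2 * d - 1) x < (2 * d - 1) ^ n := by
      obtain ⟨d', hd'⟩ : ∃ d', d = d' + 1 := ⟨d - 1, by omega⟩
      have h2 := map_le_of_mem_box (sphere_subset_box hx)
      rw [hd'] at h2 ⊢
      have h3 : 2 * (d' + 1) - 1 = 2 * d' + 1 := by omega
      rw [h3, Nat.add_sub_cancel] at h2
      rw [h3]
      exact h2.trans_lt sum_lt
    omega
  · intro a ha b hb c hc habc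
    obtain ⟨x, hx, rfl⟩ := mem_image.1 (mem_coe.1 ha)
    obtain ⟨y, hy, rfl⟩ := mem_image.1 (mem_coe.1 hb)
    obtain ⟨z, hz, rfl⟩ := mem_image.1 (mem_coe.1 hc)
    have h1 := threeAPFree_image_sphere (n := n) (d := d) (k := k)
      (mem_coe.2 (mem_image_of_mem _ hx)) (mem_coe.2 (mem_image_of_mem _ hy))
      (mem_coe.2 (mem_image_of_mem _ hz)) (by
        have : Behrend.map (2 * d - 1) x + 1 + (Behrend.map (2 * d - 1) z + 1) =
          Behrend.map (2 * d - 1) y + 1 + (Behrend.map (2 * d - 1) y + 1) := habc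
        omega)
    show Behrend.map (2 * d - 1) x + 1 = Behrend.map (2 * d - 1) y + 1
    rw [h1]
  · refine ⟨n, fun a i => (g a i : ℝ), {∑ i, MvPolynomial.X i ^ 2 - MvPolynomial.C (k : ℝ)},
      ?_, ?_, ?_, ?_, ?_⟩
    · rintro q rfl
      refine (MvPolynomial.totalDegree_sub _ _).trans (max_le ?_ ?_)
      · refine (MvPolynomial.totalDegree_finsetSum _ _).trans (Finset.sup_le fun i _ => ?_)
        refine (MvPolynomial.totalDegree_pow _ _).trans ?_
        rw [MvPolynomial.totalDegree_X]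
      · rw [MvPolynomial.totalDegree_C]
        norm_num
    · intro a ha b hb hab
      have h1 : g a = g b := by
        funext i
        have : ((g a i : ℕ) : ℝ) = ((g b i : ℕ) : ℝ) := congrFun hab i
        exact_mod_cast this
      rw [← hg2 a ha, ← hg2 b hb, h1]
    · intro a ha b hb c hc e he habce
      have h1 : Behrend.map (2 * d - 1) (g a + g b) = Behrend.map (2 * d - 1) (g c + g e) := by
        rw [_root_.map_add, _root_.map_add]
        have h2 := hg2 a ha
        have h3 := hg2 b hb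
        have h4 := hg2 c hc
        have h5 := hg2 e he
        omega
      have h2 := map_injOn (hsum _ (hg1 a ha) _ (hg1 b hb)) (hsum _ (hg1 c hc) _ (hg1 e he)) h1
      funext i
      have h3 := congrFun h2 i
      simp only [Pi.add_apply] at h3 ⊢
      exact_mod_cast h3
    · rintro q rfl a ha
      simp only [map_sub, map_sum, map_pow, MvPolynomial.eval_X, MvPolynomial.eval_C]
      rw [hsphere _ (hg1 a ha), sub_self]
    · intro F hF
      have hfin : {a | a ∈ A ∧ (fun i => (g a i : ℝ)) ∈ F}.Finite :=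
        A.finite_toSet.subset fun x hx => hx.1
      rw [Set.ncard_le_one hfin]
      rintro a ⟨ha, haF⟩ b ⟨hb, hbF⟩
      have hmid := AffineMap.lineMap_mem (1 / 2 : ℝ) haF hbF
      have h1 := hF _ rfl _ hmid
      simp only [map_sub, map_sum, map_pow, MvPolynomial.eval_X, MvPolynomial.eval_C] at h1
      have h2 : ∀ i, (AffineMap.lineMap (fun i => (g a i : ℝ)) (fun i => (g b i : ℝ))
          (1 / 2 : ℝ) : Fin n → ℝ) i = ((g a i : ℝ) + (g b i : ℝ)) / 2 := by
        intro i
        rw [AffineMap.lineMap_apply]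
        simp only [vsub_eq_sub, vadd_eq_add, Pi.add_apply, Pi.smul_apply, Pi.sub_apply,
          smul_eq_mul]
        ring
      simp only [h2] at h1
      have h3 := mid_sphere (hsphere _ (hg1 a ha)) (hsphere _ (hg1 b hb)) (by linarith)
      have h4 : g a = g b := by
        funext i
        have := congrFun h3 i
        exact_mod_cast this
      rw [← hg2 a ha, ← hg2 b hb, h4]
  · have h1 : A.card = (sphere n d k).card := by
      rw [hA]
      refine card_image_of_injOn fun x hx y hy hxy => ?_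
      have : Behrend.map (2 * d - 1) x + 1 = Behrend.map (2 * d - 1) y + 1 := hxy
      exact hinjmap x hx y hy (by omega)
    rw [h1]
    exact hlow

end Pool.Agent.U425.QH
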