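import Mathlib

set_option autoImplicit false

/-!
# Polynomial functions on real vector spaces, by finite differences
-/

namespace Pool.Agent.U425.QH

open Finset

section group
variable {W : Type*} [AddCommGroup W]

/-- polynomial maps of degree at most `e`: the `(e + 1)`-fold differences vanish -/
def PD : ℕ → (W → ℝ) → Prop
  | 0, g => ∀ x h, g (x + h) = g x
  | e + 1, g => ∀ h, PD e (fun x => g (x + h) - g x)

theorem PD.succ {e : ℕ} {g : W → ℝ} (hg : PD e g) : PD (e + 1) g := by
  induction e generalizing g with
  | zero =>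
    intro h x k
    have h1 : g (x + k + h) = g (x + k) := hg (x + k) h
    have h2 : g (x + h) = g x := hg x h
    show g (x + k + h) - g (x + k) = g (x + h) - g x
    rw [h1, h2, sub_self, sub_self]
  | succ e ih => exact fun h => ih (hg h)

theorem PD.mono {e e' : ℕ} (he : e ≤ e') {g : W → ℝ} (hg : PD e g) : PD e' g := by
  induction he with
  | refl => exact hg
  | step _ ih => exact ih.succ

theorem PD.add {e : ℕ} {f g : W → ℝ} (hf : PD e f) (hg : PD e g) : PD e (fun x => f x + g x) := by
  induction e generalizing f g with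
  | zero =>
    intro x h
    have h1 : f (x + h) = f x := hf x h
    have h2 : g (x + h) = g x := hg x h
    show f (x + h) + g (x + h) = f x + g x
    rw [h1, h2]
  | succ e ih =>
    intro h
    have := ih (hf h) (hg h)
    have e1 : (fun x => f (x + h) - f x + (g (x + h) - g x)) =
        (fun x => f (x + h) + g (x + h) - (f x + g x)) := by
      funext x; ring
    rw [e1] at this
    exact this

theorem PD.const_mul {e : ℕ} {f : W → ℝ} (c : ℝ) (hf : PD e f) : PD e (fun x => c * f x) := by
  induction e generalizing f with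
  | zero =>
    intro x h
    have h1 : f (x + h) = f x := hf x h
    show c * f (x + h) = c * f x
    rw [h1]
  | succ e ih =>
    intro h
    have := ih (hf h)
    have e1 : (fun x => c * (f (x + h) - f x)) = (fun x => c * f (x + h) - c * f x) := by
      funext x; ring
    rw [e1] at this
    exact this

theorem PD.const (e : ℕ) (c : ℝ) : PD e (fun _ : W => c) :=
  PD.mono (Nat.zero_le e) (fun _ _ => rfl : PD 0 (fun _ : W => c))

theorem PD.shift {e : ℕ} {f : W → ℝ} (k : W) (hf : PD e f) : PD e (fun x => f (x + k)) := by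
  induction e generalizing f with
  | zero =>
    intro x h
    have h1 : f (x + k + h) = f (x + k) := hf (x + k) h
    show f (x + h + k) = f (x + k)
    rw [add_right_comm, h1]
  | succ e ih =>
    intro h
    have := ih (hf h)
    have e1 : (fun x => f (x + k + h) - f (x + k)) = (fun x => f (x + h + k) - f (x + k)) := by
      funext x; rw [add_right_comm]
    rw [e1] at this
    exact this

theorem PD.mul {n a b : ℕ} (hn : a + b = n) {f g : W → ℝ} (hf : PD a f) (hg : PD b g) :
    PD n (fun x => f x * g x) := by
  induction n generalizing a b f g with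
  | zero =>
    obtain ⟨rfl, rfl⟩ : a = 0 ∧ b = 0 := by omega
    intro x h
    have h1 : f (x + h) = f x := hf x h
    have h2 : g (x + h) = g x := hg x h
    show f (x + h) * g (x + h) = f x * g x
    rw [h1, h2]
  | succ n ih =>
    intro h
    have e1 : (fun x => f (x + h) * g (x + h) - f x * g x) =
        (fun x => f (x + h) * (g (x + h) - g x) + (f (x + h) - f x) * g x) := by
      funext x; ring
    rw [e1]
    apply PD.add
    · -- first term
      cases b with
      | zero =>
        have h0 : ∀ x, g (x + h) - g x = 0 := fun x => by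
          have := hg x h
          rw [this, sub_self]
        have e2 : (fun x => f (x + h) * (g (x + h) - g x)) = (fun _ => (0 : ℝ)) := by
          funext x; rw [h0, mul_zero]
        rw [e2]
        exact PD.const n 0
      | succ b => exact ih (by omega) (hf.shift h) (hg h)
    · cases a with
      | zero =>
        have h0 : ∀ x, f (x + h) - f x = 0 := fun x => by
          have := hf x h
          rw [this, sub_self]
        have e2 : (fun x => (f (x + h) - f x) * g x) = (fun _ => (0 : ℝ)) := by
          funext x; rw [h0, zero_mul]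
        rw [e2]
        exact PD.const n 0
      | succ a => exact ih (by omega) (hf h) hg

theorem PD.comp {V : Type*} [AddCommGroup V] {e : ℕ} {g : W → ℝ} (hg : PD e g) (φ : V →+ W)
    (w : W) : PD e (fun v => g (w + φ v)) := by
  induction e generalizing g with
  | zero =>
    intro x h
    show g (w + φ (x + h)) = g (w + φ x)
    rw [map_add, ← add_assoc]
    exact hg _ _
  | succ e ih =>
    intro h
    have := ih (hg (φ h))
    have e1 : (fun v => g (w + φ v + φ h) - g (w + φ v)) =
        (fun v => g (w + φ (v + h)) - g (w + φ v)) := by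
      funext v; rw [map_add, add_assoc]
    rw [e1] at this
    exact this

end group

/-! ### real polynomials -/

theorem PD.coord {D : ℕ} (i : Fin D) : PD 1 (fun x : Fin D → ℝ => x i) := by
  intro h x k
  show (x + k + h) i - (x + k) i = (x + h) i - x i
  simp only [Pi.add_apply]
  ring

theorem PD.pow {W : Type*} [AddCommGroup W] {f : W → ℝ} (hf : PD 1 f) (k : ℕ) :
    PD k (fun x => f x ^ k) := by
  induction k with
  | zero =>
    simp only [pow_zero]
    exact PD.const 0 1
  | succ k ih =>
    have := PD.mul rfl ih hf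
    simpa only [pow_succ] using this

theorem PD.prod {W ι : Type*} [AddCommGroup W] (s : Finset ι) (f : ι → W → ℝ) (k : ι → ℕ)
    (hf : ∀ i ∈ s, PD (k i) (f i)) : PD (∑ i ∈ s, k i) (fun x => ∏ i ∈ s, f i x) := by
  classical
  induction s using Finset.induction_on with
  | empty => simpa using PD.const (W := W) 0 1
  | insert a s ha ih =>
    have h1 := PD.mul (rfl : k a + ∑ i ∈ s, k i = _) (hf a (mem_insert_self a s))
      (ih fun i hi => hf i (mem_insert_of_mem hi))
    simpa only [sum_insert ha, prod_insert ha] using h1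

theorem PD.sum {W ι : Type*} [AddCommGroup W] (s : Finset ι) (f : ι → W → ℝ) (e : ℕ)
    (hf : ∀ i ∈ s, PD e (f i)) : PD e (fun x => ∑ i ∈ s, f i x) := by
  classical
  induction s using Finset.induction_on with
  | empty => simpa using PD.const (W := W) e 0
  | insert a s ha ih =>
    have h1 := PD.add (hf a (mem_insert_self a s)) (ih fun i hi => hf i (mem_insert_of_mem hi))
    simpa only [sum_insert ha] using h1

theorem PD.eval {D : ℕ} (q : MvPolynomial (Fin D) ℝ) {e : ℕ} (he : q.totalDegree ≤ e) :
    PD e (fun x => MvPolynomial.eval x q) := by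
  have e1 : (fun x => MvPolynomial.eval x q) =
      (fun x => ∑ d ∈ q.support, q.coeff d * ∏ i, x i ^ d i) := by
    funext x
    rw [MvPolynomial.eval_eq']
  rw [e1]
  apply PD.sum
  intro d hd
  apply PD.const_mul
  have h1 := PD.prod (W := Fin D → ℝ) univ (fun i x => x i ^ d i) (fun i => d i)
    (fun i _ => (PD.coord i).pow (d i))
  refine h1.mono ((le_trans ?_ (MvPolynomial.le_totalDegree hd)).trans he)
  rw [Finsupp.sum_fintype _ _ (fun _ => rfl)]

/-! ### continuous polynomial maps -/

theorem periodic_const {e : ℕ} {H : ℝ → ℝ} (hc : Continuous H) (hH : PD e H)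
    (hp : ∀ t, H (t + 1) = H t) (t s : ℝ) : H t = H s := by
  induction e generalizing H t s with
  | zero =>
    have := hH s (t - s)
    rwa [add_sub_cancel] at this
  | succ e ih =>
    have key : ∀ s t : ℝ, H (t + s) - H t = H (0 + s) - H 0 := by
      intro s t
      have hD := hH s
      refine ih (H := fun t => H (t + s) - H t) ?_ hD ?_ t 0
      · exact (hc.comp (continuous_id.add continuous_const)).sub hc
      · intro t
        show H (t + 1 + s) - H (t + 1) = H (t + s) - H t
        rw [add_right_comm, hp, hp]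
    let φ : ℝ →+ ℝ := AddMonoidHom.mk' (fun s => H s - H 0) (by
      intro a b
      have h1 := key b a
      rw [zero_add] at h1
      linarith)
    have hφ : Continuous φ := hc.sub continuous_const
    have h1 : ∀ t : ℝ, H t - H 0 = 0 := by
      intro t
      have h2 : φ (t • (1 : ℝ)) = t • φ 1 := map_real_smul φ hφ t 1
      have h3 : φ 1 = 0 := by
        show H 1 - H 0 = 0
        have := hp 0
        rw [zero_add] at this
        rw [this, sub_self]
      rw [h3, smul_zero, smul_eq_mul, mul_one] at h2
      exact h2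
    have h4 := h1 t
    have h5 := h1 s
    linarith

section top
variable {W : Type*} [AddCommGroup W] [Module ℝ W] [TopologicalSpace W]
  [IsTopologicalAddGroup W] [ContinuousSMul ℝ W]

/-- an affine function which vanishes on `X` vanishes on the affine span -/
theorem affine_vanish {g : W → ℝ} (hc : Continuous g) (hg : PD 1 g) {X : Set W}
    (hX : ∀ x ∈ X, g x = 0) {x : W} (hx : x ∈ X) {v : W} (hv : v ∈ vectorSpan ℝ X) :
    g (x + v) = 0 := by
  let φ : W →+ ℝ := AddMonoidHom.mk' (fun s => g s - g 0) (by
    intro a b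
    have h1 : g (0 + a + b) - g (0 + a) = g (0 + b) - g 0 := hg b 0 a
    rw [zero_add, zero_add] at h1
    linarith)
  have hφ : Continuous φ := hc.sub continuous_const
  have hadd : ∀ y w, g (y + w) = g y + φ w := by
    intro y w
    have h1 : φ (y + w) = φ y + φ w := map_add φ y w
    have h2 : φ (y + w) = g (y + w) - g 0 := rfl
    have h3 : φ y = g y - g 0 := rfl
    linarith
  have hker : vectorSpan ℝ X ≤ LinearMap.ker (φ.toRealLinearMap hφ).toLinearMap := by
    rw [vectorSpan_def, Submodule.span_le]
    rintro w ⟨a, ha, b, hb, rfl⟩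
    show φ (a - b) = 0
    have h1 : g (b + (a - b)) = g b + φ (a - b) := hadd b (a - b)
    rw [add_sub_cancel, hX a ha, hX b hb, zero_add] at h1
    exact h1.symm
  have h4 : φ v = 0 := hker hv
  rw [hadd, hX x hx, h4, add_zero]

/-- the periods in `V` of a polynomial map on `b + V` -/
def Per {e : ℕ} (V : Submodule ℝ W) (G : W → ℝ) (hc : Continuous G) (hG : PD e G) (b : W) :
    Submodule ℝ W where
  carrier := {r | r ∈ V ∧ ∀ z ∈ V, G (b + z + r) = G (b + z)}
  zero_mem' := ⟨V.zero_mem, fun z _ => by rw [add_zero]⟩
  add_mem' := by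
    rintro r s ⟨hr, hr'⟩ ⟨hs, hs'⟩
    refine ⟨V.add_mem hr hs, fun z hz => ?_⟩
    have h1 := hs' (z + r) (V.add_mem hz hr)
    rw [← add_assoc] at h1
    rw [← add_assoc, h1, hr' z hz]
  smul_mem' := by
    rintro t r ⟨hr, hr'⟩
    refine ⟨V.smul_mem t hr, fun z hz => ?_⟩
    let φ : ℝ →+ W := AddMonoidHom.mk' (fun t : ℝ => t • r) (fun a b => add_smul a b r)
    have h1 : PD e (fun t : ℝ => G (b + z + t • r)) := hG.comp φ (b + z)
    have h2 : Continuous (fun t : ℝ => G (b + z + t • r)) :=
      hc.comp (continuous_const.add (continuous_id.smul continuous_const))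
    have h3 : ∀ t : ℝ, G (b + z + (t + 1) • r) = G (b + z + t • r) := by
      intro t
      have h4 := hr' (z + t • r) (V.add_mem hz (V.smul_mem t hr))
      rw [← add_assoc] at h4
      rw [add_smul, one_smul, ← add_assoc, h4]
    have h5 := periodic_const h2 h1 h3 t 0
    simp only [zero_smul, add_zero] at h5
    exact h5

/-- the points which are bad for `b` span less than `V` -/
theorem bad_span {e : ℕ} {V : Submodule ℝ W} {G : W → ℝ} (hc : Continuous G) (hG : PD e G)
    {x₀ b : W} (hb : G b = 0) (hV : V ≠ ⊥) {z₀ : W} (hz₀ : z₀ ∈ V) (hne : G (x₀ + z₀) ≠ 0)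
    {X : Set W} (hX : ∀ x ∈ X, x - x₀ ∈ V)
    (hbad : ∀ x ∈ X, ∀ z ∈ V, G (x₀ + z + (b - x)) = G (x₀ + z)) : vectorSpan ℝ X ≠ V := by
  intro hspan
  rcases X.eq_empty_or_nonempty with rfl | ⟨x₁, hx₁⟩
  · rw [vectorSpan_empty] at hspan
    exact hV hspan.symm
  have hper : vectorSpan ℝ X ≤ Per V G hc hG b := by
    rw [vectorSpan_def, Submodule.span_le]
    rintro w ⟨x', hx', x, hx, rfl⟩
    have hVr : x' - x ∈ V := by
      have := V.sub_mem (hX x' hx') (hX x hx)
      rwa [sub_sub_sub_cancel_right] at this
    refine ⟨hVr, fun z hz => ?_⟩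
    -- `z = x₀ - x' + z₁`
    have hz₁ : z - (x₀ - x') ∈ V := by
      have h1 := V.add_mem hz (hX x' hx')
      have h2 : z - (x₀ - x') = z + (x' - x₀) := by abel
      rwa [h2]
    have h1 := hbad x hx _ hz₁
    have h2 := hbad x' hx' _ hz₁
    have h3 : x₀ + (z - (x₀ - x')) + (b - x) = b + z + (x' - x) := by abel
    have h4 : x₀ + (z - (x₀ - x')) + (b - x') = b + z := by abel
    rw [h3] at h1
    rw [h4] at h2
    show G (b + z + (x' - x)) = G (b + z)
    rw [h1, h2]
  rw [hspan] at hper
  have hzero : ∀ z ∈ V, G (b + z) = 0 := by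
    intro z hz
    have h1 := (hper hz).2 0 V.zero_mem
    rw [add_zero] at h1
    rw [h1, hb]
  apply hne
  rw [← hbad x₁ hx₁ z₀ hz₀]
  have h5 : x₀ + z₀ + (b - x₁) = b + (z₀ - (x₁ - x₀)) := by abel
  rw [h5]
  exact hzero _ (V.sub_mem hz₀ (hX x₁ hx₁))

/-- the zeros of an affine function in a flat on which it does not vanish -/
theorem affine_span {V : Submodule ℝ W} {G : W → ℝ} (hc : Continuous G) (hG : PD 1 G)
    {x₀ : W} (hV : V ≠ ⊥) {z₀ : W} (hz₀ : z₀ ∈ V) (hne : G (x₀ + z₀) ≠ 0)
    {X : Set W} (hX : ∀ x ∈ X, x - x₀ ∈ V) (h0 : ∀ x ∈ X, G x = 0) : vectorSpan ℝ X ≠ V := by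
  intro hspan
  rcases X.eq_empty_or_nonempty with rfl | ⟨x₁, hx₁⟩
  · rw [vectorSpan_empty] at hspan
    exact hV hspan.symm
  have h1 : z₀ - (x₁ - x₀) ∈ vectorSpan ℝ X := by
    rw [hspan]
    exact V.sub_mem hz₀ (hX x₁ hx₁)
  have h2 := affine_vanish hc hG h0 hx₁ h1
  apply hne
  rw [← h2]
  congr 1
  abel

end top

end Pool.Agent.U425.QH
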